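import Pool.Agent.H11.NZ.Targets

set_option autoImplicit false

open Equiv (Perm)

namespace Pool.Agent.H19.NZ.DVB

open Pool.Agent.H11.NZ Pool.Agent.H11.NY

/-- The image of a perfect subgroup modulo `Z`. -/
lemma map_perfect {L : Type} [Group L] {Z T : Subgroup L} [Z.Normal] (h : ⁅T, T⁆ = T) :
    ⁅T.map (QuotientGroup.mk' Z), T.map (QuotientGroup.mk' Z)⁆ = T.map (QuotientGroup.mk' Z) := by
  rw [← Subgroup.map_commutator, h]

theorem pf_dvb : T_DVB := by
  intro L I _ _ _ Z M T hZ hR K _ i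
  obtain ⟨-, -, -, hperf, hnZ, hmin, -, -, -⟩ := hR
  set π := QuotientGroup.mk' Z with hπ
  have hker : ∀ x : L, π x = 1 ↔ x ∈ Z := fun x => QuotientGroup.eq_one_iff x
  set P : Subgroup (L ⧸ Z) := (T i).map π with hP
  have hPp : ⁅P, P⁆ = P := map_perfect (hperf i)
  have hPne : P ≠ ⊥ := by
    intro h
    apply hnZ i
    intro x hx
    rw [← hker]
    have : π x ∈ P := Subgroup.mem_map_of_mem π hx
    rw [h] at this
    exact Subgroup.mem_bot.1 this
  -- the elements central modulo `Z`
  have hcen : ∀ x ∈ T i, x ∉ Z → ∃ c ∈ T i, x * c * x⁻¹ * c⁻¹ ∉ Z := by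
    intro x hx hxZ
    by_contra hcon
    push Not at hcon
    set A : Subgroup L := T i ⊓ (Subgroup.centralizer (P : Set (L ⧸ Z))).comap π with hA
    have hxA : x ∈ A := by
      refine ⟨hx, ?_⟩
      change π x ∈ Subgroup.centralizer (P : Set (L ⧸ Z))
      rw [Subgroup.mem_centralizer_iff]
      rintro _ ⟨c, hc, rfl⟩
      have h1 := hcon c hc
      rw [← hker] at h1
      simp only [map_mul, map_inv] at h1
      have h2 : π x * π c = π c * π x := by
        have := mul_inv_eq_one.1 h1
        exact mul_inv_eq_iff_eq_mul.1 this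
      exact h2.symm
    rcases hmin i A inf_le_left (by
      intro u hu y hy
      refine ⟨(T i).mul_mem ((T i).mul_mem hu hy.1) ((T i).inv_mem hu), ?_⟩
      change π (u * y * u⁻¹) ∈ Subgroup.centralizer (P : Set (L ⧸ Z))
      rw [Subgroup.mem_centralizer_iff]
      have hy2 : π y ∈ Subgroup.centralizer (P : Set (L ⧸ Z)) := hy.2
      rw [Subgroup.mem_centralizer_iff] at hy2
      have hyu := hy2 (π u) (Subgroup.mem_map_of_mem π hu)
      rintro c hc
      rw [map_mul, map_mul, map_inv, hyu, mul_inv_cancel_right]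
      exact hy2 c hc) with h | h
    · exact hxZ (h hxA)
    · apply hPne
      rw [← hPp, Subgroup.commutator_eq_bot_iff_le_centralizer]
      rintro _ ⟨u, hu, rfl⟩
      have hu2 := h hu
      rw [Subgroup.mem_sup_of_normal_right] at hu2
      obtain ⟨a, ha, z, hz, rfl⟩ := hu2
      have hz1 : π z = 1 := (hker z).2 hz
      rw [map_mul, hz1, mul_one]
      exact ha.2
  -- an element of order prime to the characteristic
  obtain ⟨l, hl⟩ := CharP.exists K
  have hmain : ∃ x ∈ T i, x ∉ Z ∧ ∃ n : ℕ, (n : K) ≠ 0 ∧ x ^ n = 1 := by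
    rcases CharP.char_is_prime_or_zero K l with hpr | h0
    · have : Fact l.Prime := ⟨hpr⟩
      have hnp : ¬ IsPGroup l P := by
        intro hp
        have hnil := hp.isNilpotent
        have hnt : Nontrivial P := (Subgroup.nontrivial_iff_ne_bot P).2 hPne
        have h1 := Group.IsSolvable.commutator_lt_top_of_nontrivial P
        apply h1.ne
        apply Subgroup.map_injective P.subtype_injective
        rw [Subgroup.map_subtype_commutator, hPp, ← MonoidHom.range_eq_map, Subgroup.range_subtype]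
      rw [IsPGroup] at hnp
      push Not at hnp
      obtain ⟨⟨_, ⟨x0, hx0, rfl⟩⟩, hg⟩ := hnp
      have hg' : ∀ k : ℕ, x0 ^ l ^ k ∉ Z := by
        intro k hk
        apply hg k
        rw [← hker] at hk
        apply Subtype.ext
        rw [map_pow] at hk
        exact hk
      obtain ⟨k, m, hm, hkm⟩ := Nat.exists_eq_pow_mul_and_not_dvd (orderOf_pos x0).ne' l hpr.ne_one
      refine ⟨x0 ^ l ^ k, (T i).pow_mem hx0 _, hg' k, m, ?_, ?_⟩
      · rw [Ne, CharP.cast_eq_zero_iff K l]
        exact hm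
      · rw [← pow_mul, ← hkm, pow_orderOf_eq_one]
    · obtain ⟨x0, hx0, hx0Z⟩ := SetLike.not_le_iff_exists.1 (hnZ i)
      refine ⟨x0, hx0, hx0Z, orderOf x0, ?_, pow_orderOf_eq_one x0⟩
      rw [Ne, CharP.cast_eq_zero_iff K l, h0, zero_dvd_iff]
      exact (orderOf_pos x0).ne'
  obtain ⟨x, hx, hxZ, n, hn, hxn⟩ := hmain
  exact ⟨x, hx, n, hn, hxn, hcen x hx hxZ⟩

end Pool.Agent.H19.NZ.DVB
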