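import Pool.Agent.H11.NZ.Targets

set_option autoImplicit false

open Equiv (Perm)

namespace Pool.Agent.H19.NZ.XNT

open Pool.Agent.H11.NZ Pool.Agent.H11.NY

theorem pf_xnt (hXQ : T_XQ) (hOUT : T_OUT) : T_XNT := by
  intro L Ω I _ _ _ _ _ ψ X hΩ hX hS M Z T hM hZn hZ hR
  by_contra hcon
  push Not at hcon
  obtain ⟨hne, -, hTM, hperf, hnZ, hmin, -, hconj, -⟩ := hR
  obtain ⟨i⟩ := hne
  have hTX : T i ≤ X := (hTM i).trans (hM.trans inf_le_right)
  have hTk : T i ≤ ψ.ker := (hTM i).trans (hM.trans inf_le_left)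
  set π := QuotientGroup.mk' Z with hπ
  have hker : ∀ x : L, π x = 1 ↔ x ∈ Z := fun x => QuotientGroup.eq_one_iff x
  let ψ' : L ⧸ Z →* alternatingGroup Ω := QuotientGroup.lift Z ψ hZ
  have hψ' : ∀ y, ψ' (π y) = ψ y := fun y => rfl
  have hX' := (hXQ L (L ⧸ Z) Ω ψ ψ' π (QuotientGroup.mk'_surjective Z) hψ' X hX).1
  set P : Subgroup (L ⧸ Z) := (T i).map π with hP
  have hPp : ⁅P, P⁆ = P := by rw [hP, ← Subgroup.map_commutator, hperf i]
  have hPne : P ≠ ⊥ := by
    intro h
    apply hnZ i
    intro x hx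
    rw [← hker]
    have : π x ∈ P := Subgroup.mem_map_of_mem π hx
    rw [h] at this
    exact Subgroup.mem_bot.1 this
  refine hOUT (L ⧸ Z) Ω ψ' (X.map π) hΩ hX' P (Subgroup.map_mono hTX) ?_ ?_ ?_ ?_
  · rintro _ ⟨x, hx, rfl⟩
    exact hTk hx
  · by_contra hc
    push Not at hc
    apply hPne
    rw [← hPp, Subgroup.commutator_eq_bot_iff_le_centralizer]
    intro u hu
    rw [Subgroup.mem_centralizer_iff]
    intro v hv
    exact hc v hv u hu
  · rintro _ ⟨x, hx, rfl⟩ _ ⟨y, hy, rfl⟩
    refine ⟨x * y * x⁻¹, ?_, by simp only [map_mul, map_inv]⟩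
    have h1 := hconj x i y hy
    rw [hcon x hx i] at h1
    exact h1
  · have hnt : Nontrivial P := (Subgroup.nontrivial_iff_ne_bot P).2 hPne
    have hsimple : IsSimpleGroup P := by
      constructor
      intro N hN
      set f := π.subgroupMap (T i) with hf
      have hfs : Function.Surjective f := π.subgroupMap_surjective (T i)
      set A : Subgroup L := (N.comap f).map (T i).subtype with hA
      have hmem : ∀ (x : L) (hx : x ∈ T i), x ∈ A ↔ f ⟨x, hx⟩ ∈ N := by
        intro x hx
        constructor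
        · rintro ⟨⟨a, ha⟩, ha2, rfl⟩
          exact ha2
        · intro h
          exact ⟨⟨x, hx⟩, h, rfl⟩
      have hAT : A ≤ T i := by
        rintro _ ⟨a, -, rfl⟩
        exact a.2
      rcases hmin i A hAT (by
        intro x hx y hy
        have hyT := hAT hy
        rw [hmem _ ((T i).mul_mem ((T i).mul_mem hx hyT) ((T i).inv_mem hx))]
        have h1 := (hmem y hyT).1 hy
        have h2 := hN.conj_mem _ h1 (f ⟨x, hx⟩)
        exact h2) with h | h
      · left
        rw [Subgroup.eq_bot_iff_forall]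
        intro u hu
        obtain ⟨⟨x, hx⟩, rfl⟩ := hfs u
        have h1 : x ∈ Z := h ((hmem x hx).2 hu)
        apply Subtype.ext
        exact (hker x).2 h1
      · right
        rw [Subgroup.eq_top_iff']
        intro u
        obtain ⟨⟨x, hx⟩, rfl⟩ := hfs u
        have h1 := h hx
        rw [Subgroup.mem_sup_of_normal_right] at h1
        obtain ⟨a, ha, z, hz, haz⟩ := h1
        have h2 := (hmem a (hAT ha)).1 ha
        have h3 : f ⟨x, hx⟩ = f ⟨a, hAT ha⟩ := by
          apply Subtype.ext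
          change π x = π a
          rw [← haz, map_mul, (hker z).2 hz, mul_one]
        rw [h3]
        exact h2
    exact hS P hsimple (T i) (π.subgroupMap (T i)) ((hTM i).trans hM)
      (π.subgroupMap_surjective (T i))

end Pool.Agent.H19.NZ.XNT
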