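import Pool.Agent.H11.NZ.Targets

set_option autoImplicit false

open Equiv (Perm)

namespace Pool.Agent.H19.NZ.XS

open Pool.Agent.H11.NZ Pool.Agent.H11.NY

lemma map_sub {L : Type} [Group L] {H C : Subgroup L} (h : C ≤ H) :
    (C.subgroupOf H).map H.subtype = C := by
  rw [Subgroup.subgroupOf_map_subtype, inf_eq_left.2 h]

lemma sub_map {L : Type} [Group L] {H : Subgroup L} (M : Subgroup H) :
    (M.map H.subtype).subgroupOf H = M :=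
  Subgroup.comap_map_eq_self_of_injective H.subtype_injective M

lemma covOn_sub {L Ω : Type} [Group L] [Fintype Ω] [DecidableEq Ω]
    {ψ : L →* alternatingGroup Ω} {X H : Subgroup L} (hXH : X ≤ H) {Δ : Finset Ω}
    {C : Subgroup L} (hC : CovOn ψ X Δ C) :
    CovOn (ψ.comp H.subtype) (X.subgroupOf H) Δ (C.subgroupOf H) := by
  obtain ⟨h1, h2, h3, h4⟩ := hC
  refine ⟨?_, ?_, ?_, ?_⟩
  · intro c hc
    exact h1 hc
  · intro c hc ω hω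
    exact h2 c hc ω hω
  · intro x hx hx2 c hc
    exact h3 x hx hx2 c hc
  · intro σ hσ
    obtain ⟨c, hc, hcσ⟩ := h4 σ hσ
    exact ⟨⟨c, hXH (h1 hc)⟩, hc, hcσ⟩

lemma covOn_map {L Ω : Type} [Group L] [Fintype Ω] [DecidableEq Ω]
    {ψ : L →* alternatingGroup Ω} {X H : Subgroup L} (hXH : X ≤ H) {Δ : Finset Ω}
    {C : Subgroup H} (hC : CovOn (ψ.comp H.subtype) (X.subgroupOf H) Δ C) :
    CovOn ψ X Δ (C.map H.subtype) := by
  obtain ⟨h1, h2, h3, h4⟩ := hC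
  refine ⟨?_, ?_, ?_, ?_⟩
  · rintro _ ⟨c, hc, rfl⟩
    exact h1 hc
  · rintro _ ⟨c, hc, rfl⟩ ω hω
    exact h2 c hc ω hω
  · rintro x hx hx2 _ ⟨c, hc, rfl⟩
    exact ⟨⟨x, hXH hx⟩ * c * ⟨x, hXH hx⟩⁻¹, h3 ⟨x, hXH hx⟩ hx hx2 c hc, rfl⟩
  · intro σ hσ
    obtain ⟨c, hc, hcσ⟩ := h4 σ hσ
    exact ⟨c, ⟨c, hc, rfl⟩, hcσ⟩

theorem pf_xs : T_XS := by
  intro L Ω _ _ _ ψ X H hXH hX
  obtain ⟨hn, hmap, hmin⟩ := hX
  refine ⟨⟨hn.subgroupOf H, ?_, ?_⟩, ?_⟩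
  · rw [← Subgroup.map_map, map_sub hXH, hmap]
  · intro M hM hinv hMt
    have h1 : M.map H.subtype = X := by
      apply hmin
      · rintro _ ⟨m, hm, rfl⟩
        exact hM hm
      · rintro x hx _ ⟨m, hm, rfl⟩
        exact ⟨⟨x, hXH hx⟩ * m * ⟨x, hXH hx⟩⁻¹, hinv ⟨x, hXH hx⟩ hx m hm, rfl⟩
      · rw [Subgroup.map_map, hMt]
    rw [← h1, sub_map]
  · intro Δ D hD
    refine ⟨covOn_sub hXH hD.1, ?_⟩
    intro C hC
    have h1 := hD.2 _ (covOn_map hXH hC)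
    intro d hd
    obtain ⟨c, hc, hcd⟩ := h1 (show (d : L) ∈ D from hd)
    have : c = d := H.subtype_injective hcd
    rw [← this]
    exact hc

end Pool.Agent.H19.NZ.XS
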