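import Pool.Agent.H11.NZ.Targets

/-!
# Module QPB of the board nz_modules: Clifford theory
-/

set_option autoImplicit false

open Equiv (Perm)

namespace Pool.Agent.H19.NZ.QPB

open Pool.Agent.H11.NZ Pool.Agent.H11.NY

variable {L K V : Type} [Group L] [Field K] [AddCommGroup V] [Module K V]
  (ρ : L →* Module.End K V) (M : Subgroup L)

/-- The operators in the span of `M`. -/
def Alg : Submodule K (Module.End K V) :=
  Submodule.span K {y : Module.End K V | ∃ x ∈ M, y = ρ x}

/-- `M`-invariant subspace. -/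
def Inv (U : Submodule K V) : Prop := ∀ x ∈ M, ∀ u ∈ U, ρ x u ∈ U

/-- The operator vanishes on the subspace. -/
def Kill (r : Module.End K V) (U : Submodule K V) : Prop := ∀ u ∈ U, r u = 0

/-- Minimal non-zero `M`-invariant subspace. -/
def Mini (U : Submodule K V) : Prop :=
  U ≠ ⊥ ∧ Inv ρ M U ∧ ∀ U' ≤ U, Inv ρ M U' → U' = ⊥ ∨ U' = U

variable {ρ M}

lemma inv_mul_apply (y : L) (v : V) : ρ y⁻¹ (ρ y v) = v := by
  rw [← Module.End.mul_apply, ← map_mul, inv_mul_cancel, map_one, Module.End.one_apply]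

lemma mul_inv_apply (y : L) (v : V) : ρ y (ρ y⁻¹ v) = v := by
  rw [← Module.End.mul_apply, ← map_mul, mul_inv_cancel, map_one, Module.End.one_apply]

lemma rho_mul (y z : L) (v : V) : ρ (y * z) v = ρ y (ρ z v) := by
  rw [map_mul, Module.End.mul_apply]

lemma rho_inj (y : L) : Function.Injective (ρ y) := by
  intro u v h
  have := congrArg (ρ y⁻¹) h
  rwa [inv_mul_apply, inv_mul_apply] at this

/-- Operators of the span preserve invariant subspaces. -/
lemma alg_inv {U : Submodule K V} (hU : Inv ρ M U) {r : Module.End K V} (hr : r ∈ Alg ρ M) :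
    ∀ u ∈ U, r u ∈ U := by
  intro u hu
  induction hr using Submodule.span_induction with
  | mem x hx =>
    obtain ⟨m, hm, rfl⟩ := hx
    exact hU m hm u hu
  | zero => simp
  | add x y _ _ hx hy => exact U.add_mem hx hy
  | smul c x _ hx => exact U.smul_mem c hx

/-- The span is invariant under conjugation. -/
lemma alg_conj (hM : M.Normal) {r : Module.End K V} (hr : r ∈ Alg ρ M) (y : L) :
    ρ y⁻¹ * r * ρ y ∈ Alg ρ M := by
  induction hr using Submodule.span_induction with
  | mem x hx =>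
    obtain ⟨m, hm, rfl⟩ := hx
    refine Submodule.subset_span ⟨y⁻¹ * m * y, ?_, by simp only [map_mul]⟩
    have := hM.conj_mem m hm y⁻¹
    rwa [inv_inv] at this
  | zero => simp
  | add x z _ _ hx hz =>
    rw [mul_add, add_mul]
    exact Submodule.add_mem _ hx hz
  | smul c x _ hx =>
    rw [mul_smul_comm, smul_mul_assoc]
    exact Submodule.smul_mem _ c hx

lemma kill_map (r : Module.End K V) (y : L) (U : Submodule K V) :
    Kill r (U.map (ρ y)) ↔ Kill (ρ y⁻¹ * r * ρ y) U := by
  constructor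
  · intro h u hu
    rw [Module.End.mul_apply, Module.End.mul_apply, h _ (Submodule.mem_map_of_mem hu), map_zero]
  · rintro h _ ⟨u, hu, rfl⟩
    apply rho_inj (ρ := ρ) y⁻¹
    rw [map_zero]
    exact h u hu

lemma inv_map (hM : M.Normal) {U : Submodule K V} (hU : Inv ρ M U) (y : L) :
    Inv ρ M (U.map (ρ y)) := by
  rintro x hx _ ⟨u, hu, rfl⟩
  refine ⟨ρ (y⁻¹ * x * y) u, hU _ ?_ u hu, ?_⟩
  · have := hM.conj_mem x hx y⁻¹
    rwa [inv_inv] at this
  · rw [← rho_mul, ← rho_mul]
    congr 2
    group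

lemma map_map_inv (y : L) (U : Submodule K V) : (U.map (ρ y)).map (ρ y⁻¹) = U := by
  rw [← Submodule.map_comp]
  have : ρ y⁻¹ ∘ₗ ρ y = LinearMap.id := by
    ext v
    exact inv_mul_apply y v
  rw [this, Submodule.map_id]

lemma map_map_mul (y z : L) (U : Submodule K V) :
    (U.map (ρ z)).map (ρ y) = U.map (ρ (y * z)) := by
  rw [← Submodule.map_comp, map_mul]
  rfl

lemma mini_map (hM : M.Normal) {U : Submodule K V} (hU : Mini ρ M U) (y : L) :
    Mini ρ M (U.map (ρ y)) := by
  obtain ⟨h1, h2, h3⟩ := hU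
  refine ⟨?_, inv_map hM h2 y, ?_⟩
  · intro h
    apply h1
    have := map_map_inv (ρ := ρ) y U
    rw [h, Submodule.map_bot] at this
    exact this.symm
  · intro U' hU' hi
    have h4 : U'.map (ρ y⁻¹) ≤ U := by
      have := Submodule.map_mono (f := ρ y⁻¹) hU'
      rwa [map_map_inv] at this
    have h5 : (U'.map (ρ y⁻¹)).map (ρ y) = U' := by
      have := map_map_inv (ρ := ρ) y⁻¹ U'
      rwa [inv_inv] at this
    rcases h3 _ h4 (inv_map hM hi y⁻¹) with h | h
    · left
      rw [← h5, h, Submodule.map_bot]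
    · right
      rw [← h5, h]

/-- Every non-zero invariant subspace contains a minimal one. -/
lemma exists_mini [Module.Finite K V] {U : Submodule K V} (hU : U ≠ ⊥) (hi : Inv ρ M U) :
    ∃ T ≤ U, Mini ρ M T := by
  obtain ⟨T, ⟨h1, h2, h3⟩, h4⟩ := (wellFounded_lt (α := Submodule K V)).has_min
    {T | T ≤ U ∧ T ≠ ⊥ ∧ Inv ρ M T} ⟨U, le_rfl, hU, hi⟩
  refine ⟨T, h1, h2, h3, ?_⟩
  intro U' hU' hi'
  by_cases hb : U' = ⊥
  · exact Or.inl hb
  · right
    by_contra hne
    exact h4 U' ⟨hU'.trans h1, hb, hi'⟩ (lt_of_le_of_ne hU' hne)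

/-- A minimal subspace of `S ⊔ S'` is contained in `S'` or has the annihilator of `S`. -/
lemma mini_sup {S S' T : Submodule K V} (hS : Mini ρ M S) (hS' : Inv ρ M S')
    (hT : Mini ρ M T) (hle : T ≤ S ⊔ S') :
    T ≤ S' ∨ ∀ r ∈ Alg ρ M, (Kill r T ↔ Kill r S) := by
  by_cases hTS : T ≤ S'
  · exact Or.inl hTS
  right
  have inv_inf : ∀ {A B : Submodule K V}, Inv ρ M A → Inv ρ M B → Inv ρ M (A ⊓ B) := by
    intro A B hA hB x hx u hu
    exact ⟨hA x hx u hu.1, hB x hx u hu.2⟩
  -- `T` and `S'` are disjoint, as are `S` and `S'`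
  have d1 : T ⊓ S' = ⊥ := by
    rcases hT.2.2 _ inf_le_left (inv_inf hT.2.1 hS') with h | h
    · exact h
    · exact absurd (inf_eq_left.1 h) hTS
  have d2 : S ⊓ S' = ⊥ := by
    rcases hS.2.2 _ inf_le_left (inv_inf hS.2.1 hS') with h | h
    · exact h
    · exfalso
      apply hTS
      rwa [sup_eq_right.2 (inf_eq_left.1 h)] at hle
  -- the projection of `T`
  let P : Submodule K V := S ⊓ (T ⊔ S')
  have hP : Inv ρ M P := by
    apply inv_inf hS.2.1
    intro x hx u hu
    obtain ⟨a, ha, b, hb, rfl⟩ := Submodule.mem_sup.1 hu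
    rw [map_add]
    exact Submodule.add_mem_sup (hT.2.1 x hx a ha) (hS' x hx b hb)
  have hPS : P = S := by
    rcases hS.2.2 P inf_le_left hP with h | h
    · exfalso
      apply hTS
      intro u hu
      obtain ⟨a, ha, b, hb, hab⟩ := Submodule.mem_sup.1 (hle hu)
      have h1 : a ∈ P := by
        refine ⟨ha, ?_⟩
        have : a = u - b := by rw [← hab]; abel
        rw [this]
        exact Submodule.sub_mem _ (Submodule.mem_sup_left hu) (Submodule.mem_sup_right hb)
      rw [h] at h1
      rw [← hab, (Submodule.mem_bot K).1 h1, zero_add]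
      exact hb
    · exact h
  intro r hr
  constructor
  · intro h u hu
    rw [← hPS] at hu
    obtain ⟨hu1, hu2⟩ := hu
    obtain ⟨a, ha, b, hb, hab⟩ := Submodule.mem_sup.1 hu2
    have h1 : r u = r b := by rw [← hab, map_add, h a ha, zero_add]
    have h2 : r u ∈ S ⊓ S' := ⟨alg_inv hS.2.1 hr u hu1, by
      rw [h1]; exact alg_inv hS' hr b hb⟩
    rw [d2] at h2
    exact (Submodule.mem_bot K).1 h2
  · intro h u hu
    obtain ⟨a, ha, b, hb, hab⟩ := Submodule.mem_sup.1 (hle hu)
    have h1 : r u = r b := by rw [← hab, map_add, h a ha, zero_add]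
    have h2 : r u ∈ T ⊓ S' := ⟨alg_inv hT.2.1 hr u hu, by
      rw [h1]; exact alg_inv hS' hr b hb⟩
    rw [d1] at h2
    exact (Submodule.mem_bot K).1 h2

/-- A minimal subspace of a sum of minimal subspaces has the annihilator of one of them. -/
lemma mini_sum {ι : Type} {S : ι → Submodule K V} (hS : ∀ i, Mini ρ M (S i)) (J : Finset ι)
    {T : Submodule K V} (hT : Mini ρ M T) (hle : T ≤ ⨆ i ∈ J, S i) :
    ∃ i ∈ J, ∀ r ∈ Alg ρ M, (Kill r T ↔ Kill r (S i)) := by
  classical
  induction J using Finset.induction_on with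
  | empty =>
    exfalso
    apply hT.1
    rw [eq_bot_iff]
    simpa using hle
  | insert a J ha ih =>
    rw [Finset.iSup_insert] at hle
    have hinv : Inv ρ M (⨆ i ∈ J, S i) := by
      intro x hx u hu
      have h1 : (⨆ i ∈ J, S i).map (ρ x) ≤ ⨆ i ∈ J, S i := by
        rw [Submodule.map_iSup]
        apply iSup_le
        intro i
        rw [Submodule.map_iSup]
        apply iSup_le
        intro hi
        rintro _ ⟨v, hv, rfl⟩
        exact Submodule.mem_iSup_of_mem i (Submodule.mem_iSup_of_mem hi ((hS i).2.1 x hx v hv))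
      exact h1 (Submodule.mem_map_of_mem hu)
    rcases mini_sup (hS a) hinv hT hle with h | h
    · obtain ⟨i, hi, h2⟩ := ih h
      exact ⟨i, Finset.mem_insert_of_mem hi, h2⟩
    · exact ⟨a, Finset.mem_insert_self a J, h⟩

theorem pf_qpb : T_QPB := by
  intro L K V _ _ _ _ _ _ _ ρ hirr hprim M hM y hy U hU hUi hyU
  classical
  obtain ⟨⟨v0, hv0⟩, hirr⟩ := hirr
  have hVne : (⊤ : Submodule K V) ≠ ⊥ := by
    intro h
    apply hv0
    have : v0 ∈ (⊤ : Submodule K V) := trivial
    rw [h] at this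
    exact (Submodule.mem_bot K).1 this
  obtain ⟨S, -, hS⟩ := exists_mini (ρ := ρ) (M := M) hVne (fun _ _ _ _ => trivial)
  let Sy : L → Submodule K V := fun z => S.map (ρ z)
  have hSy : ∀ z, Mini ρ M (Sy z) := fun z => mini_map hM hS z
  -- the classes
  let H : Subgroup L :=
    { carrier := {z | ∀ r ∈ Alg ρ M, (Kill r (Sy z) ↔ Kill r S)}
      mul_mem' := by
        intro z w hz hw r hr
        rw [← hz r hr, kill_map r z S, ← hw _ (alg_conj hM hr z), ← kill_map, map_map_mul]
      one_mem' := by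
        intro r _
        have : Sy 1 = S := by
          simp only [Sy, map_one]
          exact Submodule.map_id S
        rw [this]
      inv_mem' := by
        intro z hz r hr
        have h1 := hz _ (alg_conj hM hr z⁻¹)
        rw [← kill_map, map_map_inv, ← kill_map] at h1
        exact h1.symm }
  have hmk : ∀ z w : L, (z : L ⧸ H) = (w : L ⧸ H) ↔
      ∀ r ∈ Alg ρ M, (Kill r (Sy z) ↔ Kill r (Sy w)) := by
    intro z w
    rw [QuotientGroup.eq]
    constructor
    · intro h r hr
      have h1 := h _ (alg_conj hM hr z)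
      rw [← kill_map, ← kill_map, map_map_mul, mul_inv_cancel_left] at h1
      exact h1.symm
    · intro h r hr
      have h1 := h _ (alg_conj hM hr z⁻¹)
      rw [← kill_map, ← kill_map, map_map_inv, map_map_mul] at h1
      exact h1.symm
  let W : L ⧸ H → Submodule K V := fun x => ⨆ (z : L) (_ : (z : L ⧸ H) = x), Sy z
  have hsum : (⨆ z : L, Sy z) = ⊤ := by
    rcases hirr (⨆ z : L, Sy z) (by
      intro x w hw
      have h1 : (⨆ z : L, Sy z).map (ρ x) ≤ ⨆ z : L, Sy z := by
        rw [Submodule.map_iSup]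
        apply iSup_le
        intro z
        rw [map_map_mul]
        exact le_iSup Sy (x * z)
      exact h1 (Submodule.mem_map_of_mem hw)) with h | h
    · exfalso
      apply (hSy 1).1
      rw [eq_bot_iff, ← h]
      exact le_iSup Sy 1
    · exact h
  have hfin : ∀ T : Submodule K V, Mini ρ M T → ∀ Q : L → Prop, T ≤ (⨆ (z : L) (_ : Q z), Sy z) →
      ∃ z, Q z ∧ ∀ r ∈ Alg ρ M, (Kill r T ↔ Kill r (Sy z)) := by
    intro T hT Q hle
    have := Fintype.ofFinite L
    have h1 : (⨆ (z : L) (_ : Q z), Sy z) = ⨆ z ∈ Finset.univ.filter Q, Sy z := by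
      simp
    rw [h1] at hle
    obtain ⟨z, hz, h2⟩ := mini_sum hSy _ hT hle
    exact ⟨z, (Finset.mem_filter.1 hz).2, h2⟩
  have hWinv : ∀ Q : L → Prop, Inv ρ M (⨆ (z : L) (_ : Q z), Sy z) := by
    intro Q x hx u hu
    have h1 : (⨆ (z : L) (_ : Q z), Sy z).map (ρ x) ≤ ⨆ (z : L) (_ : Q z), Sy z := by
      rw [Submodule.map_iSup]
      apply iSup_le
      intro z
      rw [Submodule.map_iSup]
      apply iSup_le
      intro hz
      rintro _ ⟨v, hv, rfl⟩
      exact Submodule.mem_iSup_of_mem z (Submodule.mem_iSup_of_mem hz ((hSy z).2.1 x hx v hv))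
    exact h1 (Submodule.mem_map_of_mem hu)
  have hsys : Sys ρ W := by
    refine ⟨?_, ?_, ?_, ?_, ?_⟩
    · intro x
      rw [disjoint_iff]
      by_contra hne
      have h1 : (⨆ (j : L ⧸ H) (_ : j ≠ x), W j) = ⨆ (z : L) (_ : (z : L ⧸ H) ≠ x), Sy z := by
        apply le_antisymm
        · apply iSup_le
          intro j
          apply iSup_le
          intro hj
          apply iSup_le
          intro z
          apply iSup_le
          intro hz
          exact le_iSup_of_le z (le_iSup_of_le (by rw [hz]; exact hj) le_rfl)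
        · apply iSup_le
          intro z
          apply iSup_le
          intro hz
          exact le_iSup_of_le (z : L ⧸ H) (le_iSup_of_le hz
            (le_iSup_of_le z (le_iSup_of_le rfl le_rfl)))
      rw [h1] at hne
      obtain ⟨T, hT1, hT⟩ := exists_mini (ρ := ρ) (M := M) hne (by
        intro m hm u hu
        exact ⟨hWinv _ m hm u hu.1, hWinv _ m hm u hu.2⟩)
      obtain ⟨z1, hz1, e1⟩ := hfin T hT (fun z => (z : L ⧸ H) = x) (hT1.trans inf_le_left)
      obtain ⟨z2, hz2, e2⟩ := hfin T hT (fun z => (z : L ⧸ H) ≠ x) (hT1.trans inf_le_right)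
      apply hz2
      rw [← hz1]
      exact ((hmk z1 z2).2 fun r hr => (e1 r hr).symm.trans (e2 r hr)).symm
    · rw [eq_top_iff, ← hsum]
      apply iSup_le
      intro z
      exact le_iSup_of_le (z : L ⧸ H) (le_iSup_of_le z (le_iSup_of_le rfl le_rfl))
    · intro x j w hw
      have h1 : (W j).map (ρ x) ≤ W (x • j) := by
        simp only [W]
        rw [Submodule.map_iSup]
        apply iSup_le
        intro z
        rw [Submodule.map_iSup]
        apply iSup_le
        intro hz
        rw [map_map_mul]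
        refine le_iSup_of_le (x * z) (le_iSup_of_le ?_ le_rfl)
        rw [← hz]
        rfl
      exact h1 (Submodule.mem_map_of_mem hw)
    · intro x h
      obtain ⟨z, rfl⟩ := QuotientGroup.mk_surjective x
      apply (hSy z).1
      rw [eq_bot_iff, ← h]
      exact le_iSup_of_le z (le_iSup_of_le rfl le_rfl)
    · infer_instance
  have hsub := hprim (L ⧸ H) W hsys
  have hall : ∀ z w : L, ∀ r ∈ Alg ρ M, (Kill r (Sy z) ↔ Kill r (Sy w)) := by
    intro z w
    exact (hmk z w).1 (Subsingleton.elim _ _)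
  -- a minimal subspace of `U`
  obtain ⟨T, hTU, hT⟩ := exists_mini (ρ := ρ) (M := M) hU hUi
  obtain ⟨z, -, hz⟩ := hfin T hT (fun _ => True) (by simp [hsum])
  have hyA : y ∈ Alg ρ M := hy
  have h1 : Kill y (Sy z) := (hz y hyA).1 fun u hu => hyU u (hTU hu)
  have h2 : ∀ v ∈ (⊤ : Submodule K V), y v = 0 := by
    intro v hv
    rw [← hsum] at hv
    have h3 : (⨆ w : L, Sy w) ≤ LinearMap.ker y := by
      apply iSup_le
      intro w u hu
      exact (hall z w y hyA).1 h1 u hu
    exact h3 hv
  ext v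
  exact h2 v trivial

end Pool.Agent.H19.NZ.QPB
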